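import Mathlib

namespace Pool.Agent.Results.MP_375cbb_nt.OddRun

open PowerSeries Finset

/-- `B` is the sequence of hypergeometric Bernoulli numbers of order `b`: as formal power
series over the rationals, `(sum_n B n z^n / n!) * (e^z - sum_{k<b} z^k / k!) = z^b / b!`. -/
def IsHypBernoulli (b : ℕ) (B : ℕ → ℚ) : Prop :=
  (PowerSeries.mk fun n => B n / (n.factorial : ℚ)) *
      (PowerSeries.exp ℚ - ∑ k ∈ range b, PowerSeries.C (1 / (k.factorial : ℚ)) * X ^ k) =
    PowerSeries.C (1 / (b.factorial : ℚ)) * X ^ b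

/-- The shifted tail of the exponential series. -/
noncomputable def tail (b : ℕ) : PowerSeries ℚ :=
  PowerSeries.mk fun k => 1 / ((k + b).factorial : ℚ)

lemma den_eq (b : ℕ) :
    (PowerSeries.exp ℚ - ∑ k ∈ range b, PowerSeries.C (1 / (k.factorial : ℚ)) * X ^ k) =
      tail b * X ^ b := by
  ext n
  rw [map_sub, map_sum, coeff_exp, coeff_mul_X_pow']
  simp only [coeff_C_mul, coeff_X_pow, mul_ite, mul_one, mul_zero]
  rw [Finset.sum_ite_eq]
  by_cases h : b ≤ n
  · have h2 : n ∉ range b := by simp [h]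
    rw [if_neg h2, if_pos h, tail, coeff_mk, Nat.sub_add_cancel h]
    simp
  · have h2 : n ∈ range b := by simp; omega
    rw [if_pos h2, if_neg h]
    simp

lemma gen_iff (b : ℕ) (B : ℕ → ℚ) :
    IsHypBernoulli b B ↔ (PowerSeries.mk fun n => B n / (n.factorial : ℚ)) * tail b =
      PowerSeries.C (1 / (b.factorial : ℚ)) := by
  unfold IsHypBernoulli
  rw [den_eq, ← mul_assoc]
  have hX : (X : PowerSeries ℚ) ^ b ≠ 0 := pow_ne_zero _ X_ne_zero
  exact ⟨fun h => mul_right_cancel₀ hX h, fun h => by rw [h]⟩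

lemma tail_const (b : ℕ) : constantCoeff (tail b) ≠ 0 := by
  rw [← coeff_zero_eq_constantCoeff_apply, tail, coeff_mk]
  have : ((0 + b).factorial : ℚ) ≠ 0 := by exact_mod_cast Nat.factorial_ne_zero _
  exact one_div_ne_zero this

lemma exu (b : ℕ) : ∃! B : ℕ → ℚ, IsHypBernoulli b B := by
  have hf : ∀ n : ℕ, (n.factorial : ℚ) ≠ 0 := fun n => by exact_mod_cast Nat.factorial_ne_zero _
  refine ⟨fun n => n.factorial *
    coeff n (PowerSeries.C (1 / (b.factorial : ℚ)) * (tail b)⁻¹), ?_, ?_⟩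
  · show IsHypBernoulli b _
    rw [gen_iff]
    have : (PowerSeries.mk fun n => (n.factorial : ℚ) *
        coeff n (PowerSeries.C (1 / (b.factorial : ℚ)) * (tail b)⁻¹) / (n.factorial : ℚ)) =
        PowerSeries.C (1 / (b.factorial : ℚ)) * (tail b)⁻¹ := by
      ext n
      rw [coeff_mk, mul_div_cancel_left₀ _ (hf n)]
    rw [this, mul_assoc, PowerSeries.inv_mul_cancel _ (tail_const b), mul_one]
  · intro B hB
    rw [gen_iff] at hB
    funext n
    rw [← hB, mul_assoc, PowerSeries.mul_inv_cancel _ (tail_const b), mul_one, coeff_mk,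
      mul_div_cancel₀ _ (hf n)]

lemma recur {b : ℕ} {B : ℕ → ℚ} (h : IsHypBernoulli b B) (n : ℕ) :
    ∑ i ∈ range (n + 1), ((n + b).choose i : ℚ) * B i = if n = 0 then 1 else 0 := by
  have hf : ∀ n : ℕ, (n.factorial : ℚ) ≠ 0 := fun n => by exact_mod_cast Nat.factorial_ne_zero _
  rw [gen_iff] at h
  have h1 := congrArg (coeff n) h
  rw [coeff_mul, coeff_C, Finset.Nat.sum_antidiagonal_eq_sum_range_succ_mk] at h1
  have h2 : ∑ i ∈ range (n + 1), ((n + b).choose i : ℚ) * B i =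
      ((n + b).factorial : ℚ) * ∑ i ∈ range (n + 1),
        coeff i (PowerSeries.mk fun n => B n / (n.factorial : ℚ)) * coeff (n - i) (tail b) := by
    rw [Finset.mul_sum]
    refine Finset.sum_congr rfl fun i hi => ?_
    have hi' : i ≤ n := by simpa [Nat.lt_succ_iff] using hi
    rw [coeff_mk, tail, coeff_mk, Nat.cast_choose ℚ (show i ≤ n + b by omega),
      show n + b - i = n - i + b by omega]
    have := hf i
    have := hf (n - i + b)
    field_simp
  rw [h2]
  simp only [Nat.succ_eq_add_one] at h1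
  rw [h1]
  split_ifs with h0
  · subst h0
    rw [zero_add]
    have := hf b
    field_simp
  · simp

lemma odd_iff (q : ℚ) : Odd q.den ↔ ∃ c : ℕ, Odd c ∧ ∃ a : ℤ, q * c = a := by
  constructor
  · intro h
    exact ⟨q.den, h, q.num, Rat.mul_den_eq_num q⟩
  · rintro ⟨c, hc, a, h⟩
    have hc0 : (c : ℚ) ≠ 0 := by exact_mod_cast hc.pos.ne'
    have hq : q = Rat.divInt a c := by
      rw [Rat.divInt_eq_div]
      push_cast
      rw [← h]
      field_simp
    have hd : ((Rat.divInt a c).den : ℤ) ∣ (c : ℤ) := Rat.den_dvd a c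
    rw [← hq] at hd
    exact hc.of_dvd_nat (by exact_mod_cast hd)

lemma odd_add {p q : ℚ} (hp : Odd p.den) (hq : Odd q.den) : Odd (p + q).den := by
  rw [odd_iff] at *
  obtain ⟨c, hc, a, h⟩ := hp
  obtain ⟨d, hd, e, g⟩ := hq
  refine ⟨c * d, hc.mul hd, a * d + e * c, ?_⟩
  push_cast
  rw [← h, ← g]
  ring

lemma odd_nat_mul (m : ℕ) {q : ℚ} (hq : Odd q.den) : Odd ((m : ℚ) * q).den := by
  rw [odd_iff] at *
  obtain ⟨d, hd, e, g⟩ := hq
  refine ⟨d, hd, m * e, ?_⟩
  push_cast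
  rw [← g]
  ring

lemma odd_sum (s : Finset ℕ) (f : ℕ → ℚ) (h : ∀ i ∈ s, Odd (f i).den) :
    Odd (∑ i ∈ s, f i).den :=
  Finset.sum_induction f (fun q => Odd q.den) (fun _ _ => odd_add) (by simp) h

lemma even_choose {w M i : ℕ} (h : 2 ^ w ∣ M) (h0 : 0 < i) (hi : i < 2 ^ w) :
    Even (M.choose i) := by
  rcases M with _ | M
  · rw [Nat.choose_eq_zero_of_lt h0]
    simp
  obtain ⟨j, rfl⟩ : ∃ j, i = j + 1 := ⟨i - 1, by omega⟩
  by_contra hodd
  rw [Nat.not_even_iff_odd] at hodd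
  have e := Nat.add_one_mul_choose_eq M j
  have hd : 2 ^ w ∣ (M + 1).choose (j + 1) * (j + 1) := by
    rw [← e]
    exact h.mul_right _
  have hco : Nat.Coprime (2 ^ w) ((M + 1).choose (j + 1)) :=
    Nat.Coprime.pow_left _ (Nat.coprime_two_left.mpr hodd)
  have := Nat.le_of_dvd (by omega) (hco.dvd_of_dvd_mul_left hd)
  omega

lemma odd_choose {w b n : ℕ} (h : 2 ^ w ∣ b) (hn : n < 2 ^ w) : Odd ((n + b).choose n) := by
  rcases n with _ | n
  · simp
  rw [add_comm, Nat.add_choose_eq, Finset.Nat.sum_antidiagonal_succ]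
  simp only [Nat.choose_zero_right, Nat.choose_self, mul_one]
  refine Odd.add_even odd_one (Finset.even_sum _ fun p hp => ?_)
  have : p.1 + p.2 = n := by simpa using hp
  exact (even_choose h (by omega) (by omega)).mul_right _

lemma low {b w : ℕ} {B : ℕ → ℚ} (h : IsHypBernoulli b B) (hw : 2 ^ w ∣ b) :
    ∀ n, n < 2 ^ w → Odd (B n).den := by
  intro n
  induction n using Nat.strong_induction_on with
  | _ n ih =>
    intro hn
    have r := recur h n
    rw [Finset.sum_range_succ] at r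
    have hs : Odd (∑ i ∈ range n, ((n + b).choose i : ℚ) * B i).den :=
      odd_sum _ _ fun i hi => odd_nat_mul _ (ih i (by simpa using hi)
        (lt_trans (by simpa using hi) hn))
    rw [odd_iff] at hs ⊢
    obtain ⟨c, hc, a, ha⟩ := hs
    refine ⟨(n + b).choose n * c, (odd_choose hw hn).mul hc, (if n = 0 then 1 else 0) * c - a, ?_⟩
    push_cast
    rw [← r, ← ha]
    ring

lemma top {b w : ℕ} {B : ℕ → ℚ} (h : IsHypBernoulli b B) (hw : 2 ^ w ∣ b)
    (hw' : 2 ^ (w + 1) ∣ 2 ^ w + b) : Even (B (2 ^ w)).den := by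
  by_contra hodd
  rw [Nat.not_even_iff_odd] at hodd
  have hN : 0 < 2 ^ w := by positivity
  have h0 : B 0 = 1 := by simpa using recur h 0
  have r := recur h (2 ^ w)
  rw [if_neg hN.ne', Finset.sum_range_succ', h0] at r
  have hs : Odd (∑ i ∈ range (2 ^ w),
      ((((2 ^ w + b).choose (i + 1) / 2 : ℕ) : ℚ)) * B (i + 1)).den := by
    refine odd_sum _ _ fun i hi => odd_nat_mul _ ?_
    have hi' : i < 2 ^ w := by simpa using hi
    rcases Nat.lt_or_ge (i + 1) (2 ^ w) with h1 | h1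
    · exact low h hw _ h1
    · rw [show i + 1 = 2 ^ w by omega]
      exact hodd
  have e : ∑ i ∈ range (2 ^ w), (((2 ^ w + b).choose (i + 1) : ℕ) : ℚ) * B (i + 1) =
      2 * ∑ i ∈ range (2 ^ w), ((((2 ^ w + b).choose (i + 1) / 2 : ℕ) : ℚ)) * B (i + 1) := by
    rw [Finset.mul_sum]
    refine Finset.sum_congr rfl fun i hi => ?_
    have hi' : i < 2 ^ w := by simpa using hi
    obtain ⟨t, ht⟩ := even_choose hw' (Nat.succ_pos i) (by rw [pow_succ]; omega)
    simp only [Nat.succ_eq_add_one] at ht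
    rw [ht, show (t + t) / 2 = t by omega]
    push_cast
    ring
  rw [e] at r
  rw [odd_iff] at hs
  obtain ⟨c, hc, a, ha⟩ := hs
  simp only [Nat.choose_zero_right, Nat.cast_one, mul_one] at r
  have h3 : (2 * a + c : ℚ) = 0 := by
    rw [← ha]
    linear_combination (c : ℚ) * r
  have h4 : (2 * a + c : ℤ) = 0 := by exact_mod_cast h3
  obtain ⟨k, hk⟩ := hc
  omega

theorem result (b : ℕ) (hb : 1 ≤ b) :
    (∃! B : ℕ → ℚ, IsHypBernoulli b B) ∧
    ∀ B : ℕ → ℚ, IsHypBernoulli b B →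
      IsLeast {n : ℕ | Even (B n).den}
        (if b % 4 = 0 then 2 ^ padicValNat 2 b else padicValNat 2 b + 1) := by
  refine ⟨exu b, fun B h => ?_⟩
  have hb0 : b ≠ 0 := by omega
  have h1 : 2 ^ padicValNat 2 b ∣ b := pow_padicValNat_dvd
  have h2 : ¬ 2 ^ (padicValNat 2 b + 1) ∣ b := pow_succ_padicValNat_not_dvd hb0
  generalize padicValNat 2 b = w at h1 h2
  have h3 : 2 ^ (w + 1) ∣ 2 ^ w + b := by
    obtain ⟨m, rfl⟩ := h1
    rcases Nat.even_or_odd m with ⟨k, rfl⟩ | ⟨k, rfl⟩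
    · exact absurd ⟨k, by ring⟩ h2
    · exact ⟨k + 1, by ring⟩
  have e : (if b % 4 = 0 then 2 ^ w else w + 1) = 2 ^ w := by
    split_ifs with h4
    · rfl
    · rcases w with _ | _ | w
      · rfl
      · rfl
      · exfalso
        apply h4
        obtain ⟨m, rfl⟩ := h1
        rw [show 2 ^ (w + 1 + 1) * m = 4 * (2 ^ w * m) by ring]
        omega
  rw [e]
  refine ⟨top h h1 h3, fun n hn => ?_⟩
  by_contra hlt
  exact (Nat.not_even_iff_odd.mpr (low h h1 n (by omega))) hn

end Pool.Agent.Results.MP_375cbb_nt.OddRun
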